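import Mathlib
import Pool.Agent.N604.MW.Stm10

/-!
The average over a window of the smoothed number of solutions.
-/

set_option autoImplicit false

open Finset

namespace Pool.Agent.N914.AD

open Pool.Agent.N604.MW

/-- the clamp function -/
noncomputable def cl (v : ℝ) : ℝ := max 0 (min 1 v)

theorem lam_eq (v : ℝ) : Lam v = cl (v + 1) - cl v := by
  unfold Lam cl
  rcases le_total v (-1) with h | h
  · rw [abs_of_nonpos (by linarith), max_eq_left (by linarith), min_eq_right (by linarith),
      min_eq_right (by linarith), max_eq_left (by linarith), max_eq_left (by linarith)]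
    ring
  · rcases le_total v 0 with h0 | h0
    · rw [abs_of_nonpos h0, max_eq_right (by linarith), min_eq_right (by linarith),
        min_eq_right (by linarith), max_eq_right (by linarith), max_eq_left (by linarith)]
      ring
    · rcases le_total v 1 with h1 | h1
      · rw [abs_of_nonneg h0, max_eq_right (by linarith), min_eq_left (by linarith),
          min_eq_right (by linarith), max_eq_right (by linarith), max_eq_right (by linarith)]
      · rw [abs_of_nonneg h0, max_eq_left (by linarith), min_eq_left (by linarith),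
          min_eq_left (by linarith)]
        ring

theorem cl_mono {v w : ℝ} (h : v ≤ w) : cl v ≤ cl w :=
  max_le_max le_rfl (min_le_min le_rfl h)

theorem cl_nonneg (v : ℝ) : 0 ≤ cl v := le_max_left _ _

theorem cl_le_one (v : ℝ) : cl v ≤ 1 := max_le zero_le_one (min_le_left _ _)

theorem cl_of_nonpos {v : ℝ} (h : v ≤ 0) : cl v = 0 := by
  unfold cl
  rw [min_eq_right (by linarith), max_eq_left h]

theorem cl_of_one_le {v : ℝ} (h : 1 ≤ v) : cl v = 1 := by
  unfold cl
  rw [min_eq_left h, max_eq_right zero_le_one]

theorem sum_lam (v : ℝ) (W : ℕ) :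
    ∑ h ∈ range W, Lam (v - h) = cl (v + 1) - cl (v + 1 - W) := by
  induction W with
  | zero => simp
  | succ W ih =>
    rw [sum_range_succ, ih, lam_eq]
    push_cast
    have e1 : v - (W : ℝ) + 1 = v + 1 - W := by ring
    have e2 : v - (W : ℝ) = v + 1 - (W + 1) := by ring
    rw [e1, e2]
    ring

theorem cf_eq {s : ℕ} {A : Fin s → Finset ℤ} {f : Fin s → ℤ → ℝ} {B : ℝ}
    (hf : ∀ i x, 0 ≤ f i x) (hA : ∀ i x, f i x < B → x ∈ A i) {y : ℝ} (hy : y ≤ B) :
    (CF f y : ℝ) = ∑ x ∈ Fintype.piFinset A, (if ∑ i, f i (x i) < y then (1 : ℝ) else 0) := by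
  classical
  have h1 : {x : Fin s → ℤ | ∑ i, f i (x i) < y} =
      ((Fintype.piFinset A).filter fun x => ∑ i, f i (x i) < y : Finset (Fin s → ℤ)) := by
    ext x
    simp only [Set.mem_ofPred_eq, Finset.coe_filter, Fintype.mem_piFinset]
    constructor
    · intro h
      refine ⟨fun i => hA i (x i) ?_, h⟩
      have h2 : f i (x i) ≤ ∑ j, f j (x j) :=
        Finset.single_le_sum (f := fun j => f j (x j)) (fun j _ => hf j (x j)) (mem_univ i)
      linarith
    · exact fun h => h.2
  unfold CF
  rw [h1, Set.ncard_coe_finset, Finset.sum_ite, Finset.sum_const_zero, add_zero,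
    Finset.sum_const, nsmul_eq_mul, mul_one]

theorem awin : S_AWIN := by
  intro s A f n W hW hf hA
  have hW' : (1 : ℝ) ≤ W := by exact_mod_cast hW
  have hsum : ∑ h ∈ range W, RG A f (n + h) = ∑ x ∈ Fintype.piFinset A,
      (cl (∑ i, f i (x i) - n + 1) - cl (∑ i, f i (x i) - n + 1 - W)) := by
    unfold RG
    rw [Finset.sum_comm]
    apply Finset.sum_congr rfl
    intro x _
    rw [← sum_lam]
    apply Finset.sum_congr rfl
    intro h _
    congr 1
    push_cast
    ring
  rw [hsum]
  constructor
  · rw [cf_eq hf hA (by linarith), cf_eq hf hA (y := (n : ℝ)) (by linarith),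
      ← Finset.sum_sub_distrib]
    apply Finset.sum_le_sum
    intro x _
    generalize ∑ i, f i (x i) = u
    have h0 : cl (u - n + 1 - W) ≤ cl (u - n + 1) := cl_mono (by linarith)
    by_cases h1 : u < n
    · rw [if_pos h1]
      split_ifs <;> linarith
    · rw [if_neg h1]
      by_cases h2 : u < n + W - 1
      · rw [if_pos h2, cl_of_one_le (v := u - n + 1) (by linarith [not_lt.1 h1]),
          cl_of_nonpos (by linarith)]
      · rw [if_neg h2]
        linarith
  · rw [cf_eq hf hA le_rfl, cf_eq hf hA (y := (n : ℝ) - 1) (by linarith),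
      ← Finset.sum_sub_distrib]
    apply Finset.sum_le_sum
    intro x _
    generalize ∑ i, f i (x i) = u
    have h0 := cl_nonneg (u - n + 1 - W)
    have h3 := cl_le_one (u - n + 1)
    by_cases h1 : u < n - 1
    · rw [if_pos h1, if_pos (by linarith), cl_of_nonpos (v := u - n + 1) (by linarith)]
      linarith
    · rw [if_neg h1]
      by_cases h2 : u < n + W
      · rw [if_pos h2]
        linarith
      · rw [if_neg h2, cl_of_one_le (v := u - n + 1 - W) (by linarith [not_lt.1 h2])]
        linarith

end Pool.Agent.N914.AD
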