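import Pool.Agent.N404.EX.Stm

set_option autoImplicit false

/-!
# Project EX of helper404, leaf CYC: the circuits of the permutation are cycles of the graph
-/

namespace Pool.Agent.N914.EX

open Pool.Agent.N404.EX Function

variable {V : Type}

/-- the walk `v, f v, f (f v), …` -/
lemma walk (G : SimpleGraph V) (f : V → V) (h : ∀ v, G.Adj v (f v)) (v : V) (n : ℕ) :
    ∃ p : G.Walk v (f^[n] v), p.support = (List.range (n + 1)).map (fun i => f^[i] v) ∧
      p.length = n ∧ p.edges = (List.range n).map (fun i => s(f^[i] v, f^[i + 1] v)) := by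
  induction n with
  | zero => exact ⟨SimpleGraph.Walk.nil, by simp, by simp, by simp⟩
  | succ n ih =>
    obtain ⟨p, h1, h2, h3⟩ := ih
    have hadj : G.Adj (f^[n] v) (f^[n + 1] v) := by
      rw [iterate_succ_apply']
      exact h _
    refine ⟨p.concat hadj, ?_, ?_, ?_⟩
    · rw [SimpleGraph.Walk.support_concat, h1, List.range_succ (n := n + 1), List.map_append]
      simp
    · rw [SimpleGraph.Walk.length_concat, h2]
    · rw [SimpleGraph.Walk.edges_concat, h3, List.range_succ (n := n), List.map_append,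
        List.concat_eq_append]
      simp

theorem main : S_CYC := by
  intro V _ G σ M hD w
  obtain ⟨hM, hadj, hne⟩ := hD
  have hs : ∀ v, G.Adj v (σ v) := fun v => (hadj v (σ v)).2 (Or.inr (Or.inl rfl))
  have hper : ∀ v, v ∈ periodicPts σ := fun v => by
    refine mk_mem_periodicPts (n := orderOf σ) (orderOf_pos σ) ?_
    rw [IsPeriodicPt, IsFixedPt, ← Equiv.Perm.coe_pow, pow_orderOf_eq_one]
    rfl
  obtain ⟨v, rfl⟩ : ∃ v, v = σ w := ⟨_, rfl⟩
  have hk : minimalPeriod σ (σ w) = minimalPeriod σ w := minimalPeriod_apply (hper w)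
  have hpos : 0 < minimalPeriod σ w := minimalPeriod_pos_of_mem_periodicPts (hper w)
  have hper2 : σ^[minimalPeriod σ w] w = w := isPeriodicPt_minimalPeriod σ w
  have hinj : ∀ i j, i < minimalPeriod σ w → j < minimalPeriod σ w →
      σ^[i] (σ w) = σ^[j] (σ w) → i = j := by
    intro i j hi hj hij
    have := iterate_injOn_Iio_minimalPeriod (f := σ) (x := σ w)
    rw [hk] at this
    exact this hi hj hij
  obtain ⟨m, hm⟩ : ∃ m, minimalPeriod σ w = m + 1 := ⟨minimalPeriod σ w - 1, by omega⟩
  rw [hm] at hper2 hinj ⊢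
  have hend : σ^[m] (σ w) = w := by
    rw [← iterate_succ_apply]
    exact hper2
  have hm0 : m ≠ 0 := by
    rintro rfl
    exact (hs w).ne hend.symm
  have hm1 : m ≠ 1 := by
    rintro rfl
    apply (hne w).2.2
    rw [Equiv.eq_symm_apply]
    exact hend
  obtain ⟨p, h1, h2, h3⟩ := walk G σ hs (σ w) m
  obtain ⟨q, h4, h5, h6⟩ : ∃ q : G.Walk (σ w) w, q.support = p.support ∧ q.length = p.length ∧
      q.edges = p.edges := by
    refine ⟨p.copy rfl hend, ?_, ?_, ?_⟩ <;> simp
  refine ⟨SimpleGraph.Walk.cons (hs w) q, ?_, ?_⟩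
  · rw [SimpleGraph.Walk.cons_isCycle_iff]
    constructor
    · rw [SimpleGraph.Walk.isPath_def, h4, h1]
      rw [List.nodup_map_iff_inj_on List.nodup_range]
      intro i hi j hj hij
      exact hinj i j (List.mem_range.1 hi) (List.mem_range.1 hj) hij
    · rw [h6, h3, List.mem_map]
      rintro ⟨i, hi, he⟩
      rw [List.mem_range] at hi
      rw [Sym2.eq_iff] at he
      rcases he with ⟨e1, e2⟩ | ⟨e1, e2⟩
      · have : i = m := hinj i m (by omega) (by omega) (by rw [e1, hend])
        omega
      · have a1 : i = 0 := hinj i 0 (by omega) (by omega) (by rw [e1]; rfl)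
        have a2 : i + 1 = m := hinj (i + 1) m (by omega) (by omega) (by rw [e2, hend])
        omega
  · rw [SimpleGraph.Walk.length_cons, h5, h2]

end Pool.Agent.N914.EX
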